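import Pool.Agent.U857.MF.Main

/-!
# Selberg's eigenvalue conjecture is inherited along integral relations between Hecke eigenvalues

Let `φ_0, …, φ_m` be Hecke-Maass newforms of weight `0` and trivial character for congruence subgroups (cuspidal
representations of `PGL_2` over `ℚ` with principal series component at infinity), with Laplace eigenvalues
`1/4 - r_j²`, parities `ε_j`, Satake parameters `α_j(p), α_j(p)⁻¹` and normalised Hecke eigenvalues
`λ_j(p) = α_j(p) + α_j(p)⁻¹ ∈ ℝ` for `p ∉ S`. Selberg's conjecture for `φ_j` says `Re r_j = 0`.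

A *word* `w = (w_0, …, w_m)` stands for the representation `Sym^{w_0} φ_0 ⊠ ⋯ ⊠ Sym^{w_m} φ_m`. Its trace at `p` is
`∏_j U_{w_j}(λ_j(p))`, `U_k` the polynomial `cheb k` with `U_k(x + 1/x) = ∑_a x^{k-2a}`. Let `w(u)`, `u ∈ ι`, be a
finite family of words for which the Rankin-Selberg L-functions `L(s, w(u) × w(v))` have their standard properties.
This is known for the words `Sym^k φ_j`, `k ≤ 4`, `φ_i ⊠ φ_j` and `φ_i ⊠ Sym² φ_j` (Gelbart-Jacquet, Ramakrishnan,
Kim-Shahidi, Kim for the automorphy; Jacquet, Piatetski-Shapiro, Shalika, Moeglin, Waldspurger for the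
L-functions). With these words the real combinations of products of two traces contain all real polynomials
`F(λ_0, …, λ_m)` of total degree at most four and all `∑_{j,k} P_{jk}(λ_j, λ_k)` with `P_{jk}` of degree at most four
in each variable.

**Theorem.** Let `F = ∑ c_{uv} (∏_j U_{w(u)_j}(x_j)) (∏_j U_{w(v)_j}(x_j))` be a real polynomial in `x_0, …, x_m` such
that over every bounded set of real `(x_1, …, x_m)` the real zeros `x_0` of `F` are bounded (for instance `F` monic in
`x_0`). Suppose that for all but finitely many primes `F(λ_0(p), …, λ_m(p)) = 0`, and that `λ_1(p), …, λ_m(p)` are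
bounded at almost all primes (known if `φ_1, …, φ_m` are dihedral or of Galois type; nothing is assumed of `λ_0(p)`).
Then

* **at infinity**: the relation holds there as well, `F(χ(r_0) + χ(r_0)⁻¹, …, χ(r_m) + χ(r_m)⁻¹) = 0` for every
  homomorphism `χ : (ℂ, +) → ℂ^×`. Hence `r_0` is in the `ℚ`-span of `r_1, …, r_m`. In particular **if `φ_1, …, φ_m`
  satisfy Selberg's eigenvalue conjecture, then so does `φ_0`**; if they have eigenvalue `1/4`, so has `φ_0`.
* **at every prime `p ∉ S`**: `F(χ(α_0) + χ(α_0)⁻¹, …) = 0` for every homomorphism `χ : ℂ^× → ℂ^×`, and a positive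
  power of `α_0(p)` lies in the group generated by `α_1(p), …, α_m(p)`. In particular the Ramanujan conjecture at `p`
  for `φ_1, …, φ_m` implies it for `φ_0`.

So an exceptional Maass form (`0 < r_0 < 1/2`) is transcendental, in these degrees, over the forms that satisfy
Selberg's conjecture and have bounded Hecke eigenvalues.

Idea. The quadratic relation between the traces of the words passes to all powers of the Satake parameters at all
`p ∉ S` and to the gamma factors (orders in the functional equations, library `Pool.Agent.N845.SP.rel_all`): the formal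
sums of weights vanish in the group rings of `ℂ^×` and of `ℂ`. Characters of these groups then give points of `F = 0`.
If no multiple of `r_0` were in the group generated by the other `r_j`, there would be characters `exp(t ℓ)` with
`ℓ(r_j) = 0`, `j ≥ 1`, and `ℓ(r_0) ≠ 0`, and `F(x_0, 2, …, 2)` would have unbounded zeros.
-/

set_option autoImplicit false

namespace Pool.Agent.Results.MP_a812b2_nt.IntegralDependence

open Filter Topology Complex

/-- Product of inverse gamma factors `1 / Γ_ℝ(s + μ_j)`. -/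
noncomputable def invGamma (μ : List ℂ) (s : ℂ) : ℂ := (μ.map fun m => (Gammaℝ (s + m))⁻¹).prod

/-- Finite product of inverse Euler factors `1 - b p^{-s}`. -/
noncomputable def finEuler (l : List (ℕ × ℂ)) (s : ℂ) : ℂ :=
  (l.map fun x => 1 - x.2 * (x.1 : ℂ) ^ (-s)).prod

/-- What is used of a Rankin-Selberg L-function: `L_S(s, Π × Π') = N/D` for `Re s > 1`, with `N` and `D` entire of
order at most `3/2`, and the functional equation: with
`Λ(s) = q^s · (invGamma μ s)⁻¹ · finEuler l' s / finEuler l s · N s / D s` it says `Λ(s) = ε Λ(1 - s)`.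
The Satake parameters `α p k`, `β p l` are indexed by finite types. -/
structure RankinSelberg {κ κ' : Type} [Fintype κ] [Fintype κ'] (S : Finset ℕ) (α : ℕ → κ → ℂ)
    (β : ℕ → κ' → ℂ) (μ : List ℂ) (N D : ℂ → ℂ) : Prop where
  entire_N : Differentiable ℂ N
  entire_D : Differentiable ℂ D
  order : ∃ C : ℝ, ∀ s, ‖N s‖ ≤ Real.exp (C * (1 + ‖s‖) ^ (3 / 2 : ℝ)) ∧
    ‖D s‖ ≤ Real.exp (C * (1 + ‖s‖) ^ (3 / 2 : ℝ))
  ne_zero : ∀ s : ℂ, 1 < s.re → D s ≠ 0
  euler : ∀ s : ℂ, 1 < s.re → Tendsto (fun X : ℕ =>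
    ∏ p ∈ (Finset.range X).filter (fun p => p.Prime ∧ p ∉ S),
      ∏ k, ∏ l, (1 - α p k * β p l * (p : ℂ) ^ (-s))⁻¹) atTop (𝓝 (N s / D s))
  functional : ∃ (l l' : List (ℕ × ℂ)) (q : ℝ) (ε : ℂ), 0 < q ∧ ε ≠ 0 ∧
    (∀ x ∈ l, x.1.Prime ∧ x.1 ∈ S) ∧ (∀ x ∈ l', x.1.Prime ∧ x.1 ∈ S) ∧
    ∀ s, (q : ℂ) ^ s * invGamma μ (1 - s) * finEuler l (1 - s) * finEuler l' s * (N s * D (1 - s)) =
      ε * (q : ℂ) ^ (1 - s) * invGamma μ s * finEuler l s * finEuler l' (1 - s) * (N (1 - s) * D s)

/-- The polynomial `U_k` with `U_k(x + 1/x) = x^k + x^{k-2} + ⋯ + x^{-k}`: the trace of `Sym^k`. -/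
def cheb {R : Type} [CommRing R] : ℕ → R → R
  | 0, _ => 1
  | 1, x => x
  | (k + 2), x => x * cheb (k + 1) x - cheb k x

variable {m : ℕ}

/-- The trace of the word `w` in terms of the traces `x_j`: `∏_j U_{w_j}(x_j)`. -/
def wordTrace {R : Type} [CommRing R] (w : Fin (m + 1) → ℕ) (x : Fin (m + 1) → R) : R := ∏ j, cheb (w j) (x j)

/-- The Satake parameters `∏_j α_j^{w_j - 2 q_j}`, `0 ≤ q_j ≤ w_j`, of the word `w`. -/
noncomputable def wordSatake (w : Fin (m + 1) → ℕ) (α : Fin (m + 1) → ℂ) (q : ∀ j, Fin (w j + 1)) : ℂ :=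
  ∏ j, α j ^ ((w j : ℤ) - 2 * (q j : ℕ))

/-- The shifts in the gamma factor of `L(s, u × v)`: at infinity the word `w` has the parameters
`|·|^{∑_j (w_j - 2 q_j) r_j} sgn^{∑_j w_j ε_j}`, `0 ≤ q_j ≤ w_j`. -/
noncomputable def wordShifts (u v : Fin (m + 1) → ℕ) (r : Fin (m + 1) → ℂ) (ε : Fin (m + 1) → ℕ) : List ℂ :=
  (Finset.univ : Finset ((∀ j, Fin (u j + 1)) × ∀ j, Fin (v j + 1))).toList.map fun q =>
    (∑ j, ((u j : ℂ) - 2 * ((q.1 j : ℕ) : ℂ)) * r j) + (∑ j, ((v j : ℂ) - 2 * ((q.2 j : ℕ) : ℂ)) * r j) +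
      (((((∑ j, u j * ε j) + ∑ j, v j * ε j) % 2 : ℕ)) : ℂ)

/-- The polynomial `F = ∑_{u,v} c_{uv} tr w(u) tr w(v)` in the traces `x_j`. -/
def relation {R : Type} [CommRing R] [Algebra ℝ R] {ι : Type} [Fintype ι] (w : ι → Fin (m + 1) → ℕ)
    (c : ι → ι → ℝ) (x : Fin (m + 1) → R) : R :=
  ∑ u, ∑ v, algebraMap ℝ R (c u v) * (wordTrace (w u) x * wordTrace (w v) x)

/-- **Selberg's eigenvalue conjecture and the Ramanujan conjecture are inherited along integral relations.** -/
theorem result {ι : Type} [Fintype ι] [Nonempty ι] (w : ι → Fin (m + 1) → ℕ) {S T : Finset ℕ}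
    -- Satake parameters, Hecke eigenvalues, archimedean parameters (Laplace eigenvalue `1/4 - r²`) and parities
    (α : Fin (m + 1) → ℕ → ℂ) (lam : Fin (m + 1) → ℕ → ℝ) (r : Fin (m + 1) → ℂ) (ε : Fin (m + 1) → ℕ)
    (hα : ∀ j, ∀ p : ℕ, p.Prime → p ∉ S → α j p ≠ 0)
    (hlam : ∀ j, ∀ p : ℕ, p.Prime → p ∉ S → α j p + (α j p)⁻¹ = lam j p)
    -- the Rankin-Selberg L-functions of the words
    (hRS : ∀ u v : ι, ∃ N D : ℂ → ℂ, RankinSelberg S (fun p => wordSatake (w u) fun j => α j p)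
      (fun p => wordSatake (w v) fun j => α j p) (wordShifts (w u) (w v) r ε) N D)
    -- the real polynomial: over bounded sets of `(x_1, …, x_m)` its zeros `x_0` are bounded
    (c : ι → ι → ℝ)
    (hF : ∀ B : ℝ, ∃ C : ℝ, ∀ x : Fin (m + 1) → ℝ, (∀ j, j ≠ 0 → |x j| ≤ B) → relation w c x = 0 → |x 0| ≤ C)
    -- the other forms have bounded Hecke eigenvalues, and the relation holds at almost all primes
    (hB : ∃ B : ℝ, ∀ j, j ≠ 0 → ∀ p : ℕ, p.Prime → p ∉ T → |lam j p| ≤ B)
    (hrel : ∀ p : ℕ, p.Prime → p ∉ T → relation w c (fun j => lam j p) = 0) :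
    -- at infinity
    ((∀ χ : Multiplicative ℂ →* ℂˣ, relation w c (fun j =>
        (χ (Multiplicative.ofAdd (r j)) : ℂ) + (χ (Multiplicative.ofAdd (r j)) : ℂ)⁻¹) = 0) ∧
      (∃ n : ℕ, 0 < n ∧ ∃ e : Fin (m + 1) → ℤ, e 0 = 0 ∧ (n : ℂ) * r 0 = ∑ j, (e j : ℂ) * r j) ∧
      ((∀ j, j ≠ 0 → (r j).re = 0) → (r 0).re = 0) ∧ ((∀ j, j ≠ 0 → r j = 0) → r 0 = 0)) ∧
    -- at the primes
    ∀ p : ℕ, p.Prime → p ∉ S →
      ((∀ (χ : ℂˣ →* ℂˣ) (y : Fin (m + 1) → ℂˣ), (∀ j, (y j : ℂ) = α j p) →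
        relation w c (fun j => (χ (y j) : ℂ) + (χ (y j) : ℂ)⁻¹) = 0) ∧
      (∃ n : ℕ, 0 < n ∧ ∃ e : Fin (m + 1) → ℤ, e 0 = 0 ∧ α 0 p ^ n = ∏ j, α j p ^ e j) ∧
      ((∀ j, j ≠ 0 → ‖α j p‖ = 1) → ‖α 0 p‖ = 1)) := by
  classical
  have hcheb : ∀ {R : Type} [CommRing R] (x : R) (k : ℕ), cheb k x = Pool.Agent.U857.MF.cheb k x := by
    intro R _ x k
    induction k using Nat.strong_induction_on with
    | _ k ih =>
      match k, ih with
      | 0, _ => rfl
      | 1, _ => rfl
      | (k + 2), ih =>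
        rw [cheb, Pool.Agent.U857.MF.cheb, ih (k + 1) (by omega), ih k (by omega)]
  have hwt : ∀ {R : Type} [CommRing R] (v : Fin (m + 1) → ℕ) (x : Fin (m + 1) → R),
      wordTrace v x = Pool.Agent.U857.MF.chw v x := by
    intro R _ v x
    unfold wordTrace Pool.Agent.U857.MF.chw
    exact Finset.prod_congr rfl fun j _ => hcheb _ _
  have hrelR : ∀ x : Fin (m + 1) → ℝ, relation w c x =
      ∑ i, ∑ j, c i j * (Pool.Agent.U857.MF.chw (w i) x * Pool.Agent.U857.MF.chw (w j) x) := by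
    intro x
    unfold relation
    simp only [hwt, Algebra.algebraMap_self, RingHom.id_apply]
  have hrelC : ∀ x : Fin (m + 1) → ℂ, relation w c x =
      ∑ i, ∑ j, (c i j : ℂ) * (Pool.Agent.U857.MF.chw (w i) x * Pool.Agent.U857.MF.chw (w j) x) := by
    intro x
    unfold relation
    simp only [hwt, Complex.coe_algebraMap]
  have hsh : ∀ u v : Fin (m + 1) → ℕ, wordShifts u v r ε = Pool.Agent.U857.MF.shf u v r ε := by
    intro u v
    unfold wordShifts Pool.Agent.U857.MF.shf Pool.Agent.U857.MF.wgt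
    simp only [zsmul_eq_mul]
    push_cast
    rfl
  obtain ⟨⟨h1, h2⟩, h3⟩ := Pool.Agent.U857.MF.words_main w α lam r ε hα hlam (fun u v => by
      obtain ⟨N, D, h⟩ := hRS u v
      rw [hsh] at h
      exact ⟨N, D, h.entire_N, h.entire_D, h.order, h.ne_zero, h.euler, h.functional⟩) c
    (fun B => by
      obtain ⟨C, hC⟩ := hF B
      exact ⟨C, fun y hy h => hC y hy (by rw [hrelR]; exact h)⟩) hB
    (fun p hp hpT => by
      have h := hrel p hp hpT
      rw [hrelR] at h
      exact h)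
  refine ⟨⟨fun χ => ?_, h2, ?_, ?_⟩, fun p hp hpS => ⟨fun χ y hy => ?_, (h3 p hp hpS).2, ?_⟩⟩
  · rw [hrelC]
    exact h1 χ
  · intro h
    obtain ⟨n, hn, e, he0, he⟩ := h2
    have h4 := congrArg Complex.re he
    rw [Complex.re_sum] at h4
    have h5 : ∀ j, ((e j : ℂ) * r j).re = 0 := by
      intro j
      rw [← Complex.ofReal_intCast, Complex.re_ofReal_mul]
      by_cases hj : j = 0
      · rw [hj, he0]
        simp
      · rw [h j hj, mul_zero]
    rw [Finset.sum_eq_zero fun j _ => h5 j, ← Complex.ofReal_natCast, Complex.re_ofReal_mul] at h4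
    rcases mul_eq_zero.1 h4 with h6 | h6
    · exfalso
      have : n = 0 := by exact_mod_cast h6
      omega
    · exact h6
  · intro h
    obtain ⟨n, hn, e, he0, he⟩ := h2
    have h5 : ∀ j, (e j : ℂ) * r j = 0 := by
      intro j
      by_cases hj : j = 0
      · rw [hj, he0]
        simp
      · rw [h j hj, mul_zero]
    rw [Finset.sum_eq_zero fun j _ => h5 j] at he
    rcases mul_eq_zero.1 he with h6 | h6
    · exfalso
      have : n = 0 := by exact_mod_cast h6
      omega
    · exact h6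
  · rw [hrelC]
    exact (h3 p hp hpS).1 χ y hy
  · intro h
    obtain ⟨n, hn, e, he0, he⟩ := (h3 p hp hpS).2
    have h4 := congrArg (fun z : ℂ => ‖z‖) he
    simp only [norm_pow, norm_prod, norm_zpow] at h4
    have h5 : ∀ j, ‖α j p‖ ^ e j = 1 := by
      intro j
      by_cases hj : j = 0
      · rw [hj, he0, zpow_zero]
      · rw [h j hj, one_zpow]
    rw [Finset.prod_eq_one fun j _ => h5 j] at h4
    exact (pow_eq_one_iff_of_nonneg (norm_nonneg _) hn.ne').1 h4

end Pool.Agent.Results.MP_a812b2_nt.IntegralDependence
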