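import Pool.Agent.U183.LD.Fin2

/-!
# MP_a812b2_nt: a density theorem at the natural scale for all congruence subgroups of `SL(2,ℤ)`

There is an absolute constant `C` such that for EVERY congruence subgroup `Γ` of `SL(2,ℤ)`, of index
`n`, the eigenvalues `1/4 - ν_i ^ 2` of the Laplacian on `Γ \ ℍ` with `ν_i ≥ C / log n` (with
multiplicity, the eigenvalue `0` included) satisfy `∑ n ^ (ν_i / 8) ≤ C n`; in particular at most
`C exp (-K / 8) n` of them satisfy `ν_i ≥ K / log n`, for every `K ≥ C`.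

The new ingredient is the second part: for every congruence subgroup `Γ` every `δ ≠ ±1` has at
most `C ‖δ‖ ^ (3/4) n ^ (7/8 + ε)` fixed points on `SL(2,ℤ) / Γ`.
-/

set_option autoImplicit false

open MeasureTheory
open scoped MatrixGroups UpperHalfPlane

namespace Pool.Agent.Results.MP_a812b2_nt.LogFreeDensity

/-- `f` is a square integrable eigenfunction of the Laplacian `-y² (∂²/∂x² + ∂²/∂y²)` on `Γ \ ℍ`,
with eigenvalue `1/4 - ν²` (the conventions are those of the frozen statement). -/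
structure IsEigenfunction (Γ : Subgroup SL(2, ℤ)) (ν : ℝ) (f : ℂ → ℂ) : Prop where
  /-- `f` is smooth on the upper half plane -/
  smooth : ContDiffOn ℝ (⊤ : ℕ∞) f {w : ℂ | 0 < w.im}
  /-- `f` is `Γ`-invariant -/
  invariant : ∀ γ ∈ Γ, ∀ z : ℍ, f ((γ • z : ℍ) : ℂ) = f (z : ℂ)
  /-- `-y² (f_xx + f_yy) = (1/4 - ν²) f` -/
  laplace : ∀ z : ℍ,
    -((z.im : ℂ) ^ 2) *
      (deriv (fun s : ℝ => deriv (fun t : ℝ => f ((t : ℂ) + (z.im : ℂ) * Complex.I)) s) z.re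
        + deriv (fun s : ℝ => deriv (fun t : ℝ => f ((z.re : ℂ) + (t : ℂ) * Complex.I)) s) z.im)
      = ((1 / 4 - ν ^ 2 : ℝ) : ℂ) * f (z : ℂ)
  /-- `f` is square integrable for `dx dy / y²` on every translate of the fundamental domain -/
  sqIntegrable : ∀ γ : SL(2, ℤ), IntegrableOn (fun w : ℂ => ‖f w‖ ^ 2 / w.im ^ 2)
    ((fun z : ℍ => ((γ • z : ℍ) : ℂ)) '' ModularGroup.fd)

/-- `Γ` is a congruence subgroup. -/
def IsCongruence (Γ : Subgroup SL(2, ℤ)) : Prop :=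
  ∃ N : ℕ, 0 < N ∧ CongruenceSubgroup.Gamma N ≤ Γ

/-- (1) The density theorem at the natural scale: there is an absolute constant `C > 0` such that
for every congruence subgroup `Γ` of index `n`, linearly independent square integrable
eigenfunctions `f i` on `Γ \ ℍ` with eigenvalues `1/4 - (ν i)²`, `C ≤ ν i * log n`, `ν i ≤ 1/2`,
satisfy `∑ i, n ^ (ν i / 8) ≤ C n`, and their number is at most `C exp (-K / 8) n` whenever
`C ≤ K ≤ ν i * log n` for all `i`.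

(2) For every `ε > 0` there is `C > 0` such that for every congruence subgroup `Γ` of index `n`
every `δ = (a b; c d) ≠ 1, -1` in `SL(2,ℤ)` has at most
`C (a² + b² + c² + d²) ^ (3/8) n ^ (7/8 + ε)` fixed points on `SL(2,ℤ) / Γ`. -/
theorem result :
    (∃ C : ℝ, 0 < C ∧ ∀ Γ : Subgroup SL(2, ℤ), IsCongruence Γ →
      ∀ (k : ℕ) (ν : Fin k → ℝ) (f : Fin k → ℂ → ℂ),
        (∀ i, C ≤ ν i * Real.log Γ.index) → (∀ i, ν i ≤ 1 / 2) →
        (∀ i, IsEigenfunction Γ (ν i) (f i)) →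
        LinearIndependent ℂ (fun i => fun z : ℍ => f i z) →
        (∑ i, (Γ.index : ℝ) ^ (ν i / 8) ≤ C * (Γ.index : ℝ)) ∧
        ∀ K : ℝ, C ≤ K → (∀ i, K ≤ ν i * Real.log Γ.index) →
          (k : ℝ) ≤ C * Real.exp (-K / 8) * (Γ.index : ℝ)) ∧
    (∀ ε : ℝ, 0 < ε → ∃ C : ℝ, 0 < C ∧ ∀ Γ : Subgroup SL(2, ℤ), IsCongruence Γ →
      ∀ δ : SL(2, ℤ), δ ≠ 1 → δ ≠ -1 →
        (Nat.card {x : SL(2, ℤ) ⧸ Γ // δ • x = x} : ℝ) ≤
          C * ((δ 0 0 : ℝ) ^ 2 + (δ 0 1 : ℝ) ^ 2 + (δ 1 0 : ℝ) ^ 2 + (δ 1 1 : ℝ) ^ 2) ^ (3 / 8 : ℝ) *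
            (Γ.index : ℝ) ^ (7 / 8 + ε)) := by
  constructor
  · obtain ⟨C, hC, h⟩ := Pool.Agent.U183.LD.logfree
    have hC0 : 0 < C := by linarith
    refine ⟨C, hC0, fun Γ hΓ k ν f hν hν' hf hli => ?_⟩
    have h1 := h Γ hΓ k ν f hν hν'
      (fun i => ⟨(hf i).smooth, (hf i).invariant, (hf i).laplace, (hf i).sqIntegrable⟩) hli
    refine ⟨h1, fun K _ hK => ?_⟩
    have hn : (1 : ℝ) ≤ Γ.index := by
      obtain ⟨N, hN, hle⟩ := hΓ
      have : NeZero N := ⟨hN.ne'⟩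
      have hfin : Γ.FiniteIndex := Subgroup.finiteIndex_of_le hle
      exact_mod_cast Nat.pos_of_ne_zero hfin.index_ne_zero
    have hn0 : (0 : ℝ) < Γ.index := by linarith
    have h2 : (k : ℝ) * Real.exp (K / 8) ≤ ∑ i, (Γ.index : ℝ) ^ (ν i / 8) := by
      have : (k : ℝ) * Real.exp (K / 8) = ∑ _i : Fin k, Real.exp (K / 8) := by simp
      rw [this]
      refine Finset.sum_le_sum fun i _ => ?_
      rw [Real.rpow_def_of_pos hn0]
      apply Real.exp_le_exp.2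
      have := hK i
      linarith
    have h3 := h2.trans h1
    have h4 : Real.exp (-K / 8) * Real.exp (K / 8) = 1 := by
      rw [← Real.exp_add, ← Real.exp_zero]; congr 1; ring
    have h5 : 0 < Real.exp (-K / 8) := Real.exp_pos _
    calc (k : ℝ) = Real.exp (-K / 8) * ((k : ℝ) * Real.exp (K / 8)) := by
          rw [mul_left_comm, h4, mul_one]
      _ ≤ Real.exp (-K / 8) * (C * (Γ.index : ℝ)) := by gcongr
      _ = _ := by ring
  · intro ε hε
    obtain ⟨C, hC, h⟩ := Pool.Agent.U183.LD.power_saving ε hε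
    refine ⟨C, hC, fun Γ hΓ δ h1 h2 => ?_⟩
    obtain ⟨N, hN⟩ := Pool.Agent.N799.DT.exists_level Γ hΓ
    have h3 := h Γ N hN δ h1 h2
    have h4 : Pool.Agent.H369R2.mnorm δ ^ (3 / 4 : ℝ) =
        ((δ 0 0 : ℝ) ^ 2 + (δ 0 1 : ℝ) ^ 2 + (δ 1 0 : ℝ) ^ 2 + (δ 1 1 : ℝ) ^ 2) ^ (3 / 8 : ℝ) := by
      unfold Pool.Agent.H369R2.mnorm
      rw [Real.sqrt_eq_rpow, ← Real.rpow_mul (by positivity)]
      norm_num
    rw [h4] at h3
    exact h3

end Pool.Agent.Results.MP_a812b2_nt.LogFreeDensity
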