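import Pool.Agent.U441.SE.Mul
import Pool.Agent.U441.SE.Num

/-!
# Selberg's eigenvalue conjecture and the multiplicity of exceptional eigenvalues

An exceptional eigenvalue of a congruence subgroup is an eigenvalue `1/4 - ν²` with `0 < ν < 1/2` of
the Laplacian on `Γ \ ℍ`.

1. A gap law. If an exceptional eigenvalue occurs for one congruence subgroup `Γ ⊇ Γ(N)`, then its
   multiplicity on `Γ(N m) \ ℍ` is at least `m / (k τ(m)²)` for ALL `m ≥ 1` (`k` depends only on the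
   eigenfunction, `τ(m)` is the number of divisors), and at least `(p - 1) / 2` for all primes
   `m = p` which do not divide `k`. So the number of exceptional eigenvalues of `Γ(n)` either
   vanishes for all `n` or is larger than `n ^ (1 - δ)`, for every `δ > 0`, for all large `n` in a
   progression `N ∣ n`.
2. Selberg's conjecture is therefore equivalent to each of the much weaker statements that the
   number of exceptional eigenvalues of `Γ(n)` is `O(n ^ (1 - δ))`; that, for each `N` and `ν`, the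
   multiplicity is at most `m ^ (1 - δ)` on `Γ(N m)` for some arbitrarily large `m`; that, for each
   `N` and `ν`, the multiplicity is less than `(p - 1) / 2` on `Γ(N p)` for some arbitrarily large
   primes `p`. (The index of `Γ(n)` is of order `n³`.)

Proof: a nonzero eigenfunction `f` has a nonconstant Fourier mode `e(k x / N)`. The functions
`f((γ z) / m)`, `γ ∈ SL(2, ℤ)`, are eigenfunctions on `Γ(N m)`; their span contains an eigenvector of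
the translation by `N` with eigenvalue `e(k / m)`, hence (conjugation by matrices congruent to
`diag(a, 1/a)`) with every eigenvalue `e(k a² / m)`, `a` prime to `m`.
-/

set_option autoImplicit false

open MeasureTheory
open scoped MatrixGroups UpperHalfPlane

namespace Pool.Agent.Results.MP_a812b2_nt.MultiplicityGrowth

/-- `f` is a square integrable eigenfunction of the Laplacian `-y² (∂²/∂x² + ∂²/∂y²)` on `Γ \ ℍ`,
with eigenvalue `1/4 - ν²` (the conventions are those of the frozen statement). -/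
structure IsEigenfunction (Γ : Subgroup SL(2, ℤ)) (ν : ℝ) (f : ℂ → ℂ) : Prop where
  /-- `f` is smooth on the upper half plane -/
  smooth : ContDiffOn ℝ (⊤ : ℕ∞) f {w : ℂ | 0 < w.im}
  /-- `f` is `Γ`-invariant -/
  invariant : ∀ γ ∈ Γ, ∀ z : ℍ, f ((γ • z : ℍ) : ℂ) = f (z : ℂ)
  /-- `-y² (f_xx + f_yy) = (1/4 - ν²) f` -/
  laplace : ∀ z : ℍ,
    -((z.im : ℂ) ^ 2) *
      (deriv (fun s : ℝ => deriv (fun t : ℝ => f ((t : ℂ) + (z.im : ℂ) * Complex.I)) s) z.re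
        + deriv (fun s : ℝ => deriv (fun t : ℝ => f ((z.re : ℂ) + (t : ℂ) * Complex.I)) s) z.im)
      = ((1 / 4 - ν ^ 2 : ℝ) : ℂ) * f (z : ℂ)
  /-- `f` is square integrable for `dx dy / y²` on every translate of the fundamental domain -/
  sqIntegrable : ∀ γ : SL(2, ℤ), IntegrableOn (fun w : ℂ => ‖f w‖ ^ 2 / w.im ^ 2)
    ((fun z : ℍ => ((γ • z : ℍ) : ℂ)) '' ModularGroup.fd)

/-- the eigenvalue `1/4 - ν²` has multiplicity at least `r` on `Γ \ ℍ` -/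
def AtLeast (Γ : Subgroup SL(2, ℤ)) (ν : ℝ) (r : ℕ) : Prop :=
  ∃ g : Fin r → ℂ → ℂ, (∀ i, IsEigenfunction Γ ν (g i)) ∧
    LinearIndependent ℂ (fun i => fun z : ℍ => g i z)

/-- `Γ \ ℍ` has at least `r` eigenvalues `1/4 - ν²` with `ε ≤ ν < 1/2`, counted with multiplicity -/
def Exceptional (Γ : Subgroup SL(2, ℤ)) (ε : ℝ) (r : ℕ) : Prop :=
  ∃ (ν : Fin r → ℝ) (g : Fin r → ℂ → ℂ), (∀ i, ε ≤ ν i ∧ ν i < 1 / 2) ∧
    (∀ i, IsEigenfunction Γ (ν i) (g i)) ∧ LinearIndependent ℂ (fun i => fun z : ℍ => g i z)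

/-- Selberg's eigenvalue conjecture (the text of the frozen statement) -/
def Selberg : Prop :=
  ∀ Γ : Subgroup SL(2, ℤ), (∃ N : ℕ, 0 < N ∧ CongruenceSubgroup.Gamma N ≤ Γ) →
    ∀ (f : ℂ → ℂ) (μ : ℝ), 0 < μ → μ < 1 / 4 →
      ContDiffOn ℝ (⊤ : ℕ∞) f {w : ℂ | 0 < w.im} →
      (∀ γ ∈ Γ, ∀ z : ℍ, f ((γ • z : ℍ) : ℂ) = f (z : ℂ)) →
      (∀ z : ℍ,
        -((z.im : ℂ) ^ 2) *
          (deriv (fun s : ℝ => deriv (fun t : ℝ => f ((t : ℂ) + (z.im : ℂ) * Complex.I)) s) z.re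
           + deriv (fun s : ℝ => deriv (fun t : ℝ => f ((z.re : ℂ) + (t : ℂ) * Complex.I)) s) z.im)
          = (μ : ℂ) * f (z : ℂ)) →
      (∀ γ : SL(2, ℤ), IntegrableOn (fun w : ℂ => ‖f w‖ ^ 2 / w.im ^ 2)
          ((fun z : ℍ => ((γ • z : ℍ) : ℂ)) '' ModularGroup.fd)) →
      ∀ z : ℍ, f (z : ℂ) = 0

lemma toIs {Γ : Subgroup SL(2, ℤ)} {ν : ℝ} {f : ℂ → ℂ} (h : IsEigenfunction Γ ν f) :
    Pool.Agent.N799.DT.IsEigen Γ ν f := ⟨h.smooth, h.invariant, h.laplace, h.sqIntegrable⟩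

lemma ofIs {Γ : Subgroup SL(2, ℤ)} {ν : ℝ} {f : ℂ → ℂ} (h : Pool.Agent.N799.DT.IsEigen Γ ν f) :
    IsEigenfunction Γ ν f := ⟨h.smooth, h.inv, h.eq, h.sqint⟩

lemma atLeast_one {Γ : Subgroup SL(2, ℤ)} {ν : ℝ} {f : ℂ → ℂ} (h : IsEigenfunction Γ ν f)
    (hne : ∃ z : ℍ, f z ≠ 0) : AtLeast Γ ν 1 := by
  refine ⟨fun _ => f, fun _ => h, ?_⟩
  rw [linearIndependent_unique_iff]
  intro h0
  obtain ⟨z, hz⟩ := hne
  exact hz (congrFun h0 z)

lemma selberg_iff : Selberg ↔ ∀ Γ : Subgroup SL(2, ℤ),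
    (∃ N : ℕ, 0 < N ∧ CongruenceSubgroup.Gamma N ≤ Γ) → ∀ ν : ℝ, 0 < ν → ν < 1 / 2 →
      ¬ AtLeast Γ ν 1 := by
  constructor
  · rintro h Γ hΓ ν h0 h1 ⟨g, hg, hli⟩
    have h2 := h Γ hΓ (g 0) (1 / 4 - ν ^ 2) (by nlinarith) (by nlinarith [pow_pos h0 2])
      (hg 0).smooth (hg 0).invariant (hg 0).laplace (hg 0).sqIntegrable
    apply hli.ne_zero 0
    funext z
    exact h2 z
  · intro h Γ hΓ f μ h0 h1 hf1 hf2 hf3 hf4 z
    by_contra hz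
    set ν := √(1 / 4 - μ) with hν
    have hν2 : ν ^ 2 = 1 / 4 - μ := Real.sq_sqrt (by linarith)
    have hν0 : 0 < ν := Real.sqrt_pos.2 (by linarith)
    have hν1 : ν < 1 / 2 := by
      nlinarith [hν0, hν2]
    refine h Γ hΓ ν hν0 hν1 (atLeast_one ⟨hf1, hf2, ?_, hf4⟩ ⟨z, hz⟩)
    intro w
    rw [hf3 w, hν2]
    congr 2
    ring

/-- the lower bound -/
lemma growth {N : ℕ} (hN : 0 < N) {Γ : Subgroup SL(2, ℤ)} (hΓ : CongruenceSubgroup.Gamma N ≤ Γ)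
    {ν : ℝ} (h0 : 0 < ν) (h1 : ν < 1 / 2) (h : AtLeast Γ ν 1) :
    ∃ k : ℕ, 0 < k ∧ ∀ m : ℕ, 0 < m → ∃ r : ℕ,
      AtLeast (CongruenceSubgroup.Gamma (N * m)) ν r ∧ m ≤ k * m.divisors.card ^ 2 * r ∧
      (m.Prime → ¬ m ∣ k → m ≤ 2 * r + 1) := by
  obtain ⟨g, hg, hli⟩ := h
  have hne : ∃ z : ℍ, g 0 z ≠ 0 := by
    by_contra hcon
    push Not at hcon
    apply hli.ne_zero 0
    funext z
    exact hcon z
  have hν : ν ^ 2 ≠ 1 / 4 := (by nlinarith : ν ^ 2 < 1 / 4).ne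
  obtain ⟨k, hk, hm⟩ := Pool.Agent.U441.SE.mult_lower hN hΓ hν (toIs (hg 0)) hne
  refine ⟨2 * k.natAbs, by have := Int.natAbs_pos.2 hk; omega, fun m hm0 => ?_⟩
  obtain ⟨f, hf, hf2⟩ := hm m hm0
  refine ⟨(Pool.Agent.U441.SE.cls m k).ncard, ⟨f, fun i => ofIs (hf i), hf2⟩,
    Pool.Agent.U441.SE.cls_card hm0 hk, fun hp hmk => ?_⟩
  refine Pool.Agent.U441.SE.cls_prime hp fun hd => hmk ?_
  exact Dvd.dvd.mul_left (Int.natCast_dvd.1 hd) 2

open Filter in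
lemma large (C δ : ℝ) (hδ : 0 < δ) : ∃ M : ℕ, ∀ m : ℕ, M ≤ m → C < (m : ℝ) ^ δ := by
  have h1 := (tendsto_rpow_atTop hδ).comp tendsto_natCast_atTop_atTop (α := ℕ)
  have h2 := h1.eventually_gt_atTop C
  obtain ⟨M, hM⟩ := eventually_atTop.1 h2
  exact ⟨M, fun m hm => hM m hm⟩

lemma growth_rpow {N : ℕ} (hN : 0 < N) {Γ : Subgroup SL(2, ℤ)}
    (hΓ : CongruenceSubgroup.Gamma N ≤ Γ) {ν : ℝ} (h0 : 0 < ν) (h1 : ν < 1 / 2)
    (h : AtLeast Γ ν 1) (δ : ℝ) (hδ : 0 < δ) : ∃ c : ℝ, 0 < c ∧ ∀ m : ℕ, 0 < m → ∃ r : ℕ,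
      AtLeast (CongruenceSubgroup.Gamma (N * m)) ν r ∧ c * (m : ℝ) ^ (1 - δ) ≤ r := by
  obtain ⟨k, hk, hm⟩ := growth hN hΓ h0 h1 h
  obtain ⟨C, hC, hd⟩ := Pool.Agent.H369R2.divisor_bound (δ / 2) (by positivity)
  have hk' : (0 : ℝ) < k := by exact_mod_cast hk
  refine ⟨(k * C ^ 2)⁻¹, by positivity, fun m hm0 => ?_⟩
  obtain ⟨r, h2, h3, -⟩ := hm m hm0
  refine ⟨r, h2, ?_⟩
  have hm' : (0 : ℝ) < m := by exact_mod_cast hm0
  have h4 : (m : ℝ) ≤ k * (m.divisors.card : ℝ) ^ 2 * r := by exact_mod_cast h3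
  have h5 := hd m hm0
  have h6 : (m.divisors.card : ℝ) ^ 2 ≤ C ^ 2 * (m : ℝ) ^ δ := by
    have h7 : (m : ℝ) ^ δ = ((m : ℝ) ^ (δ / 2)) ^ 2 := by
      rw [← Real.rpow_natCast, ← Real.rpow_mul hm'.le]
      congr 1
      push_cast
      ring
    rw [h7, ← mul_pow]
    exact pow_le_pow_left₀ (by positivity) h5 2
  have h8 : (m : ℝ) ≤ k * (C ^ 2 * (m : ℝ) ^ δ) * r := by
    refine h4.trans ?_
    gcongr
  rw [Real.rpow_sub hm', Real.rpow_one, inv_mul_le_iff₀ (by positivity), div_le_iff₀ (by positivity)]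
  calc (m : ℝ) ≤ k * (C ^ 2 * (m : ℝ) ^ δ) * r := h8
    _ = _ := by ring

lemma exc_of_atLeast {Γ : Subgroup SL(2, ℤ)} {ν : ℝ} (h1 : ν < 1 / 2) {r : ℕ}
    (h : AtLeast Γ ν r) : Exceptional Γ ν r := by
  obtain ⟨g, hg, hli⟩ := h
  exact ⟨fun _ => ν, g, fun _ => ⟨le_refl _, h1⟩, hg, hli⟩

/-- **The gap law for exceptional eigenvalues, and the equivalence with Selberg's conjecture.** -/
theorem result :
    -- 1. growth of the multiplicity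
    (∀ N : ℕ, 0 < N → ∀ Γ : Subgroup SL(2, ℤ), CongruenceSubgroup.Gamma N ≤ Γ →
      ∀ ν : ℝ, 0 < ν → ν < 1 / 2 → AtLeast Γ ν 1 →
      (∃ k : ℕ, 0 < k ∧ ∀ m : ℕ, 0 < m → ∃ r : ℕ,
        AtLeast (CongruenceSubgroup.Gamma (N * m)) ν r ∧ m ≤ k * m.divisors.card ^ 2 * r ∧
        (m.Prime → ¬ m ∣ k → m ≤ 2 * r + 1)) ∧
      ∀ δ : ℝ, 0 < δ → ∃ c : ℝ, 0 < c ∧ ∀ m : ℕ, 0 < m → ∃ r : ℕ,
        AtLeast (CongruenceSubgroup.Gamma (N * m)) ν r ∧ c * (m : ℝ) ^ (1 - δ) ≤ r) ∧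
    -- 2. equivalences
    List.TFAE [Selberg,
      ∀ ε : ℝ, 0 < ε → ∃ δ C : ℝ, 0 < δ ∧ ∀ n : ℕ, 0 < n → ∀ r : ℕ,
        Exceptional (CongruenceSubgroup.Gamma n) ε r → (r : ℝ) ≤ C * (n : ℝ) ^ (1 - δ),
      ∀ N : ℕ, 0 < N → ∀ ν : ℝ, 0 < ν → ν < 1 / 2 → ∃ δ : ℝ, 0 < δ ∧ ∀ m₀ : ℕ, ∃ m : ℕ, m₀ ≤ m ∧
        ∀ r : ℕ, AtLeast (CongruenceSubgroup.Gamma (N * m)) ν r → (r : ℝ) ≤ (m : ℝ) ^ (1 - δ),
      ∀ N : ℕ, 0 < N → ∀ ν : ℝ, 0 < ν → ν < 1 / 2 → ∀ p₀ : ℕ, ∃ p : ℕ, p₀ ≤ p ∧ p.Prime ∧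
        ∀ r : ℕ, AtLeast (CongruenceSubgroup.Gamma (N * p)) ν r → 2 * r + 1 < p] := by
  refine ⟨fun N hN Γ hΓ ν h0 h1 h => ⟨growth hN hΓ h0 h1 h, growth_rpow hN hΓ h0 h1 h⟩, ?_⟩
  tfae_have 1 → 2 := by
    intro hS ε hε
    refine ⟨1, 1, one_pos, fun n hn r hr => ?_⟩
    rw [selberg_iff] at hS
    obtain ⟨ν, g, hν, hg, hli⟩ := hr
    rcases Nat.eq_zero_or_pos r with h | h
    · rw [h]
      simp
    · exfalso
      refine hS (CongruenceSubgroup.Gamma n) ⟨n, hn, le_refl _⟩ (ν ⟨0, h⟩)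
        (lt_of_lt_of_le hε (hν _).1) (hν _).2 (atLeast_one (hg ⟨0, h⟩) ?_)
      by_contra hcon
      push Not at hcon
      apply hli.ne_zero ⟨0, h⟩
      funext z
      exact hcon z
  tfae_have 2 → 3 := by
    intro h2 N hN ν h0 h1
    obtain ⟨δ, C, hδ, hb⟩ := h2 ν h0
    refine ⟨δ / 2, by positivity, fun m₀ => ?_⟩
    obtain ⟨M, hM⟩ := large (C * (N : ℝ) ^ (1 - δ)) (δ / 2) (by positivity)
    refine ⟨max (max m₀ M) 1, (le_max_left _ _).trans (le_max_left _ _), fun r hr => ?_⟩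
    set m : ℕ := max (max m₀ M) 1 with hm
    have hm0 : 0 < m := lt_of_lt_of_le Nat.one_pos (le_max_right _ _)
    have hm' : (0 : ℝ) < m := by exact_mod_cast hm0
    have h3 := hb (N * m) (Nat.mul_pos hN hm0) r (exc_of_atLeast h1 hr)
    have h4 := hM m ((le_max_right _ _).trans (le_max_left _ _))
    calc (r : ℝ) ≤ C * ((N * m : ℕ) : ℝ) ^ (1 - δ) := h3
      _ = C * (N : ℝ) ^ (1 - δ) * (m : ℝ) ^ (1 - δ) := by
          push_cast
          rw [Real.mul_rpow (by positivity) hm'.le]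
          ring
      _ ≤ (m : ℝ) ^ (δ / 2) * (m : ℝ) ^ (1 - δ) := by gcongr
      _ = (m : ℝ) ^ (1 - δ / 2) := by
          rw [← Real.rpow_add hm']
          congr 1
          ring
  tfae_have 2 → 4 := by
    intro h2 N hN ν h0 h1 p₀
    obtain ⟨δ, C, hδ, hb⟩ := h2 ν h0
    obtain ⟨M, hM⟩ := large (4 * (C * (N : ℝ) ^ (1 - δ))) δ hδ
    obtain ⟨p, hp1, hp2⟩ := Nat.exists_infinite_primes (max (max p₀ M) 3)
    refine ⟨p, (le_max_left _ _).trans ((le_max_left _ _).trans hp1), hp2, fun r hr => ?_⟩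
    have hp' : (0 : ℝ) < p := by exact_mod_cast hp2.pos
    have h3 := hb (N * p) (Nat.mul_pos hN hp2.pos) r (exc_of_atLeast h1 hr)
    have h4 := hM p ((le_max_right _ _).trans ((le_max_left _ _).trans hp1))
    have hp3 : (3 : ℝ) ≤ p := by exact_mod_cast (le_max_right _ _).trans hp1
    have h5 : (r : ℝ) ≤ C * (N : ℝ) ^ (1 - δ) * (p : ℝ) ^ (1 - δ) := by
      refine h3.trans (le_of_eq ?_)
      push_cast
      rw [Real.mul_rpow (by positivity) hp'.le]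
      ring
    have h6 : 4 * (r : ℝ) < p := by
      have h7 : 0 < (p : ℝ) ^ (1 - δ) := Real.rpow_pos_of_pos hp' _
      calc 4 * (r : ℝ) ≤ 4 * (C * (N : ℝ) ^ (1 - δ)) * (p : ℝ) ^ (1 - δ) := by linarith
        _ < (p : ℝ) ^ δ * (p : ℝ) ^ (1 - δ) := by gcongr
        _ = p := by
            rw [← Real.rpow_add hp']
            simp
    have h8 : (2 * (r : ℝ) + 1) < p := by linarith
    exact_mod_cast h8
  tfae_have 3 → 1 := by
    intro h3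
    rw [selberg_iff]
    rintro Γ ⟨N, hN, hΓ⟩ ν h0 h1 hcon
    obtain ⟨δ, hδ, h4⟩ := h3 N hN ν h0 h1
    obtain ⟨c, hc, h5⟩ := growth_rpow hN hΓ h0 h1 hcon (δ / 2) (by positivity)
    obtain ⟨M, hM⟩ := large c⁻¹ (δ / 2) (by positivity)
    obtain ⟨m, hm1, hm2⟩ := h4 (max M 1)
    have hm0 : 0 < m := (le_max_right _ _).trans hm1
    have hm' : (0 : ℝ) < m := by exact_mod_cast hm0
    obtain ⟨r, hr1, hr2⟩ := h5 m hm0
    have h6 := hr2.trans (hm2 r hr1)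
    have h7 := hM m ((le_max_left _ _).trans hm1)
    have h8 : (m : ℝ) ^ (1 - δ / 2) = (m : ℝ) ^ (δ / 2) * (m : ℝ) ^ (1 - δ) := by
      rw [← Real.rpow_add hm']
      congr 1
      ring
    have h9 : 0 < (m : ℝ) ^ (1 - δ) := Real.rpow_pos_of_pos hm' _
    rw [h8] at h6
    have h10 : 1 < c * (m : ℝ) ^ (δ / 2) := by
      rwa [inv_lt_iff_one_lt_mul₀ hc, mul_comm] at h7
    nlinarith
  tfae_have 4 → 1 := by
    intro h3
    rw [selberg_iff]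
    rintro Γ ⟨N, hN, hΓ⟩ ν h0 h1 hcon
    obtain ⟨k, hk, h5⟩ := growth hN hΓ h0 h1 hcon
    obtain ⟨p, hp1, hp2, hp3⟩ := h3 N hN ν h0 h1 (k + 1)
    obtain ⟨r, hr1, -, hr2⟩ := h5 p hp2.pos
    have h6 := hr2 hp2 (fun hd => by have := Nat.le_of_dvd hk hd; omega)
    have h7 := hp3 r hr1
    omega
  tfae_finish

end Pool.Agent.Results.MP_a812b2_nt.MultiplicityGrowth
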