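import Pool.Agent.U252.SZ.Law

/-!
# The small eigenvalues of `Γ \ ℍ` from the lengths of the closed geodesics

Let `Γ` be a subgroup of finite index of `SL(2, ℤ)`, for example a congruence subgroup. Selberg's zeta
function `Z_Γ(s) = ∏_P ∏_{k ≥ 0} (1 - e^{-(s + k) ℓ(P)})`, the product over the primitive closed
geodesics `P` of `Γ \ ℍ`, converges for `Re s > 1`. By Selberg's theorem it has a meromorphic
continuation, and its zeros `σ > 1/2` are the simple zero `σ = 1` and the numbers `1/2 < σ < 1` for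
which `σ (1 - σ) < 1/4` is an eigenvalue of the Laplacian, with the multiplicity of the eigenvalue
(`IsSelbergZeta`). Selberg's conjecture says that there are no zeros of the second kind for
congruence subgroups. The prime geodesic theorem shows them in the number of the closed geodesics
of length `≤ log x` as terms of order `x ^ σ`, but only those with `σ` larger than the exponent of
the remainder term are visible there (without cancellations in the sum over the rest of the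
spectrum: `σ > 3/4`).

Here it is proved that all of them, with their multiplicities, are visible in one absolutely
convergent sum: for `1/2 ≤ a < 1`, `γ > π/2` and `T > 0` let

`S(T) = ∑_{P, m ≥ 1} e^{-(a - 1/2) L} / (2 m sinh (L/2)) · e^{i γ L / T} / Γ(1 + L / T)`, `L = m ℓ(P)`,

the sum over all closed geodesics `P ^ m`, of length `L`. Then

`S(T) = n (log T - Λ_γ) - log |l| + i π (1 + e) + O(1 / T)`,

where `e` is the number of the eigenvalues `λ` with `0 < λ < a (1 - a)`, counted with multiplicity,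
`n` and `l` are the order and the leading coefficient of `Z_Γ` at `s = a` (for `a > 1/2` the
number `n` is the multiplicity of the eigenvalue `a (1 - a)`), and
`Λ_γ = ∫_0^∞ (e^{-t} - e^{iγt} / Γ(1 + t)) dt / t`. There is no condition on the other zeros and on
the poles of `Z_Γ`, and no trace formula is used. For `a = 1/2` the number `e` is the number of all
exceptional eigenvalues. So Selberg's conjecture is true if and only if for all `N` the limit of
`Im S(T) + Im Λ_γ Re S(T) / log T` is `π` for `Γ = Γ(N)` and `a = 1/2`, and if and only if the lower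
limit is smaller than `2 π`.

The convergence of the sum over the geodesics is proved by reduction theory.
-/

set_option autoImplicit false

namespace Pool.Agent.Results.MP_a812b2_nt.SmallEigenvalueCount

open Filter Topology MeasureTheory
open scoped MatrixGroups UpperHalfPlane
open Pool.Agent.U252.SZ (Geodesic selbergZeta)

/-- `f` is a square integrable eigenfunction of the Laplacian `-y² (∂²/∂x² + ∂²/∂y²)` on `Γ \ ℍ`,
with eigenvalue `μ` (the conventions are those of the frozen statement). -/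
structure IsEigenfunction (Γ : Subgroup SL(2, ℤ)) (μ : ℝ) (f : ℂ → ℂ) : Prop where
  /-- `f` is smooth on the upper half plane -/
  smooth : ContDiffOn ℝ (⊤ : ℕ∞) f {w : ℂ | 0 < w.im}
  /-- `f` is `Γ`-invariant -/
  invariant : ∀ γ ∈ Γ, ∀ z : ℍ, f ((γ • z : ℍ) : ℂ) = f (z : ℂ)
  /-- `-y² (f_xx + f_yy) = μ f` -/
  laplace : ∀ z : ℍ,
    -((z.im : ℂ) ^ 2) *
      (deriv (fun s : ℝ => deriv (fun t : ℝ => f ((t : ℂ) + (z.im : ℂ) * Complex.I)) s) z.re
        + deriv (fun s : ℝ => deriv (fun t : ℝ => f ((z.re : ℂ) + (t : ℂ) * Complex.I)) s) z.im)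
      = (μ : ℂ) * f (z : ℂ)
  /-- `f` is square integrable for `dx dy / y²` on every translate of the fundamental domain -/
  sqIntegrable : ∀ γ : SL(2, ℤ), IntegrableOn (fun w : ℂ => ‖f w‖ ^ 2 / w.im ^ 2)
    ((fun z : ℍ => ((γ • z : ℍ) : ℂ)) '' ModularGroup.fd)

/-- `k` is the multiplicity of the eigenvalue `μ` on `Γ \ ℍ` (zero if `μ` is not an eigenvalue): the
largest number of eigenfunctions which are linearly independent as functions on `ℍ`. -/
def HasMultiplicity (Γ : Subgroup SL(2, ℤ)) (μ : ℝ) (k : ℕ) : Prop :=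
  (∃ f : Fin k → ℂ → ℂ, (∀ i, IsEigenfunction Γ μ (f i)) ∧
    LinearIndependent ℂ (fun i => fun z : ℍ => f i z)) ∧
  ∀ (m : ℕ) (f : Fin m → ℂ → ℂ), (∀ i, IsEigenfunction Γ μ (f i)) →
    LinearIndependent ℂ (fun i => fun z : ℍ => f i z) → m ≤ k

/-- `F` is the meromorphic continuation of the Selberg zeta function of `Γ` to (a neighbourhood of)
the half line `[1/2, ∞)`, with the properties proved by Selberg: no zeros `σ > 1`, a simple zero
at `1`, and for `1/2 < σ < 1` the order is the multiplicity of the eigenvalue `σ (1 - σ)`. -/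
structure IsSelbergZeta (Γ : Subgroup SL(2, ℤ)) (F : ℂ → ℂ) : Prop where
  mero : ∀ σ : ℝ, 1 / 2 ≤ σ → MeromorphicAt F (σ : ℂ)
  eq : ∀ s : ℂ, 2 < s.re → F s = selbergZeta Γ s
  right : ∀ σ : ℝ, 1 < σ → meromorphicOrderAt F (σ : ℂ) = 0
  one : meromorphicOrderAt F (1 : ℂ) = 1
  zeros : ∀ σ : ℝ, 1 / 2 < σ → σ < 1 → ∃ k : ℕ, HasMultiplicity Γ (σ * (1 - σ)) k ∧
    meromorphicOrderAt F (σ : ℂ) = ((k : ℤ) : WithTop ℤ)

/-- `e` is the number of the eigenvalues `σ (1 - σ)`, `a < σ < 1`, of `Γ \ ℍ`, counted with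
multiplicity. (For `1/2 ≤ a < 1` these are the eigenvalues `λ` with `0 < λ < a (1 - a)`.) -/
def IsCount (Γ : Subgroup SL(2, ℤ)) (a : ℝ) (e : ℕ) : Prop :=
  ∃ (S : Finset ℝ) (k : ℝ → ℕ), (∀ σ ∈ S, a < σ ∧ σ < 1) ∧
    (∀ σ : ℝ, a < σ → σ < 1 → HasMultiplicity Γ (σ * (1 - σ)) (k σ)) ∧
    (∀ σ : ℝ, a < σ → σ < 1 → σ ∉ S → k σ = 0) ∧ e = ∑ σ ∈ S, k σ

/-- There are no eigenvalues `λ` with `0 < λ < b` on `Γ \ ℍ`. -/
def NoEigenvalue (Γ : Subgroup SL(2, ℤ)) (b : ℝ) : Prop :=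
  ∀ (f : ℂ → ℂ) (μ : ℝ), 0 < μ → μ < b → IsEigenfunction Γ μ f → ∀ z : ℍ, f (z : ℂ) = 0

/-- The term of the closed geodesic `P ^ (m + 1)`, `x = (P, m)`, of length `L = (m + 1) ℓ(P)`:
`e^{-(a - 1/2) L} / (2 (m + 1) sinh (L/2)) · e^{iγL/T} / Γ(1 + L/T)`. -/
noncomputable def term {Γ : Subgroup SL(2, ℤ)} (a γ T : ℝ) (x : Geodesic Γ × ℕ) : ℂ :=
  ((Real.exp (-((a - 1 / 2) * ((x.2 + 1) * x.1.len))) /
      ((x.2 + 1) * (2 * Real.sinh ((x.2 + 1) * x.1.len / 2))) *
      (Real.Gamma (1 + (x.2 + 1) * x.1.len / T))⁻¹ : ℝ) : ℂ) *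
    Complex.exp ((γ * ((x.2 + 1) * x.1.len / T) : ℝ) * Complex.I)

/-- The sum `S(T)` over all closed geodesics. -/
noncomputable def sum (Γ : Subgroup SL(2, ℤ)) (a γ T : ℝ) : ℂ :=
  ∑' x : Geodesic Γ × ℕ, term a γ T x

/-- `Λ_γ = ∫_0^∞ (e^{-t} - e^{iγt} / Γ(1 + t)) dt / t`. -/
noncomputable def Lambda (γ : ℝ) : ℂ := ∫ t in Set.Ioi (0 : ℝ),
  (Complex.exp (-(t : ℂ)) - Complex.exp ((γ * t : ℝ) * Complex.I) * ((Real.Gamma (1 + t))⁻¹ : ℝ)) / t

/-- The number `Im S(T) + Im Λ_γ Re S(T) / log T`. -/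
noncomputable def count (Γ : Subgroup SL(2, ℤ)) (a γ T : ℝ) : ℝ :=
  (sum Γ a γ T).im + (Lambda γ).im * ((sum Γ a γ T).re / Real.log T)

theorem IsEigenfunction.mono {Γ Δ : Subgroup SL(2, ℤ)} (h : Δ ≤ Γ) {μ : ℝ} {f : ℂ → ℂ}
    (hf : IsEigenfunction Γ μ f) : IsEigenfunction Δ μ f :=
  ⟨hf.smooth, fun γ hγ z => hf.invariant γ (h hγ) z, hf.laplace, hf.sqIntegrable⟩

theorem zero_of_mult {Γ : Subgroup SL(2, ℤ)} {μ : ℝ} (h : HasMultiplicity Γ μ 0) {f : ℂ → ℂ}
    (hf : IsEigenfunction Γ μ f) (z : ℍ) : f (z : ℂ) = 0 := by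
  by_contra hz
  have h1 := h.2 1 (fun _ => f) (fun _ => hf) (by
    rw [linearIndependent_unique_iff]
    intro h2
    exact hz (congrFun h2 z))
  omega

theorem mult_zero_of {Γ : Subgroup SL(2, ℤ)} {μ : ℝ} {k : ℕ} (h : HasMultiplicity Γ μ k)
    (h0 : ∀ f : ℂ → ℂ, IsEigenfunction Γ μ f → ∀ z : ℍ, f (z : ℂ) = 0) : k = 0 := by
  by_contra hk
  obtain ⟨f, hf, hl⟩ := h.1
  have h1 := hl.ne_zero (⟨0, Nat.pos_of_ne_zero hk⟩ : Fin k)
  exact h1 (funext fun z => h0 _ (hf _) z)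

/-- there are no eigenvalues iff the number is zero -/
theorem count_zero_iff {Γ : Subgroup SL(2, ℤ)} {a : ℝ} (ha : 1 / 2 ≤ a) {e : ℕ}
    (h : IsCount Γ a e) : e = 0 ↔ NoEigenvalue Γ (a * (1 - a)) := by
  obtain ⟨S, k, hS, hk, h0, rfl⟩ := h
  constructor
  · intro hz f μ hμ hμa hf z
    have hμ4 : μ < 1 / 4 := by nlinarith [sq_nonneg (a - 1 / 2)]
    set r := √(1 / 4 - μ) with hr
    have hr0 : 0 < r := Real.sqrt_pos.2 (by linarith)
    have hr2 : r ^ 2 = 1 / 4 - μ := Real.sq_sqrt (by linarith)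
    have e1 : (1 / 2 + r) * (1 - (1 / 2 + r)) = μ := by nlinarith
    have h1 : a < 1 / 2 + r := by
      by_contra hcon
      push Not at hcon
      have h2 : r ≤ a - 1 / 2 := by linarith
      have h3 : r ^ 2 ≤ (a - 1 / 2) ^ 2 := by gcongr
      nlinarith
    have h2 : 1 / 2 + r < 1 := by
      by_contra hcon
      push Not at hcon
      have h3 : 1 / 2 ≤ r := by linarith
      nlinarith
    have h3 := hk _ h1 h2
    have h4 : k (1 / 2 + r) = 0 := by
      by_cases h5 : 1 / 2 + r ∈ S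
      · exact (Finset.sum_eq_zero_iff.1 hz) _ h5
      · exact h0 _ h1 h2 h5
    rw [h4, e1] at h3
    exact zero_of_mult h3 hf z
  · intro hno
    refine Finset.sum_eq_zero fun σ hσ => ?_
    obtain ⟨h1, h2⟩ := hS σ hσ
    refine mult_zero_of (hk σ h1 h2) fun f hf z => hno f _ ?_ ?_ hf z
    · nlinarith
    · nlinarith

/-- the theorem for one group -/
theorem one_group (Γ : Subgroup SL(2, ℤ)) [Γ.FiniteIndex] {F : ℂ → ℂ} (hF : IsSelbergZeta Γ F)
    {γ : ℝ} (hγ : Real.pi / 2 < γ) {a : ℝ} (ha : 1 / 2 ≤ a) (ha1 : a < 1) :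
    ∃ (n : ℤ) (l : ℂ) (e : ℕ), meromorphicOrderAt F (a : ℂ) = n ∧
      meromorphicTrailingCoeffAt F (a : ℂ) = l ∧ l ≠ 0 ∧
      (1 / 2 < a → ∃ k : ℕ, HasMultiplicity Γ (a * (1 - a)) k ∧ n = k) ∧
      IsCount Γ a e ∧
      (fun T : ℝ => sum Γ a γ T - (n * (Real.log T - Lambda γ) - Real.log ‖l‖ +
        Real.pi * (1 + e) * Complex.I)) =O[atTop] (fun T : ℝ => 1 / T) ∧
      Tendsto (fun T : ℝ => (sum Γ a γ T).re / Real.log T) atTop (𝓝 n) ∧
      Tendsto (count Γ a γ) atTop (𝓝 (Real.pi * (1 + e))) := by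
  classical
  obtain ⟨n, l, h1, h2, h3, h4⟩ := Pool.Agent.U252.SZ.geo_law (Γ := Γ) hF.eq (a := a)
    (fun x hx => hF.mero x (ha.trans hx)) hγ
  have hz : ∀ σ : ℝ, ∃ k : ℕ, 1 / 2 < σ → σ < 1 → HasMultiplicity Γ (σ * (1 - σ)) k ∧
      meromorphicOrderAt F (σ : ℂ) = ((k : ℤ) : WithTop ℤ) := by
    intro σ
    by_cases hσ : 1 / 2 < σ ∧ σ < 1
    · obtain ⟨k, hk⟩ := hF.zeros σ hσ.1 hσ.2
      exact ⟨k, fun _ _ => hk⟩
    · exact ⟨0, fun h5 h6 => absurd ⟨h5, h6⟩ hσ⟩
  choose k hk using hz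
  obtain ⟨hfin, hcount⟩ := Pool.Agent.U252.SZ.ray_count (F := F) ha1
    (fun x hx => hF.mero x (ha.trans hx)) hF.right hF.one
  set S : Finset ℝ := hfin.toFinset with hSdef
  have hS : ∀ σ ∈ S, a < σ ∧ σ < 1 := by
    intro σ hσ
    rw [hSdef, Set.Finite.mem_toFinset] at hσ
    exact ⟨hσ.1, hσ.2.1⟩
  have hk' : ∀ σ : ℝ, a < σ → σ < 1 →
      meromorphicOrderAt F (σ : ℂ) = ((k σ : ℤ) : WithTop ℤ) := fun σ h5 h6 =>
    (hk σ (lt_of_le_of_lt ha h5) h6).2
  have h0 : ∀ σ : ℝ, a < σ → σ < 1 → σ ∉ S → k σ = 0 := by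
    intro σ h5 h6 h7
    by_contra h8
    apply h7
    rw [hSdef, Set.Finite.mem_toFinset]
    refine ⟨h5, h6, ?_⟩
    rw [hk' σ h5 h6]
    change (k σ : ℤ) ≠ 0
    exact_mod_cast h8
  have hray := hcount S k hS hk' h0
  set e : ℕ := ∑ σ ∈ S, k σ with he
  have hray' : ((Pool.Agent.U252.RM.rayZ F (a : ℂ) : ℤ) : ℂ) = 1 + e := by
    rw [hray, he]
    push_cast
    rfl
  have hlaw : (fun T : ℝ => sum Γ a γ T - (n * (Real.log T - Lambda γ) + (-Real.log ‖l‖ +
      Real.pi * (1 + e) * Complex.I))) =O[atTop] (fun T : ℝ => 1 / T) := by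
    refine h4.congr_left fun T => ?_
    rw [hray']
    have e1 : sum Γ a γ T = ∑' x : Geodesic Γ × ℕ, Pool.Agent.U252.SZ.geoTerm a γ T x := rfl
    have e2 : Lambda γ = Pool.Agent.W187.UR.Lam γ := rfl
    rw [e1, e2]
    ring
  refine ⟨n, l, e, h1, h2, h3, fun h5 => ?_, ⟨S, k, hS, fun σ h5 h6 =>
    (hk σ (lt_of_le_of_lt ha h5) h6).1, h0, rfl⟩, ?_, ?_, ?_⟩
  · obtain ⟨h6, h7⟩ := hk a h5 ha1
    refine ⟨k a, h6, ?_⟩
    rw [h1] at h7
    exact_mod_cast h7
  · refine hlaw.congr_left fun T => ?_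
    ring
  · exact Pool.Agent.N41.RM.re_of_law hlaw
  · have h5 := Pool.Agent.N41.RM.im_of_law hlaw
    have h6 : ((-(Real.log ‖l‖ : ℂ) + Real.pi * (1 + e) * Complex.I)).im = Real.pi * (1 + e) := by
      have h7 : (-(Real.log ‖l‖ : ℂ) + Real.pi * (1 + e) * Complex.I) =
          ((-Real.log ‖l‖ : ℝ) : ℂ) + ((Real.pi * (1 + e) : ℝ) : ℂ) * Complex.I := by
        push_cast; ring
      rw [h7, Complex.add_im, Complex.ofReal_im, Complex.mul_I_im, Complex.ofReal_re, zero_add]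
    rw [h6] at h5
    exact h5

/-- **Theorem.** (A) Let `Γ` be a subgroup of finite index of `SL(2, ℤ)`. The series `S(T)` converges
absolutely for all real `a` and `γ` and all `T > 0`. Let `F` be the continuation of the Selberg zeta
function of `Γ` to `[1/2, ∞)`, with the properties proved by Selberg, and let `1/2 ≤ a < 1` and
`γ > π / 2`. Then, with the order `n` and the leading coefficient `l` of `F` at `a`, and the number
`e` of the eigenvalues `λ` of the Laplacian on `Γ \ ℍ` with `0 < λ < a (1 - a)`, counted with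
multiplicity,

`S(T) = n (log T - Λ_γ) - log |l| + i π (1 + e) + O(1 / T)`,

so `Re S(T) / log T` tends to `n` and `count T = Im S(T) + Im Λ_γ Re S(T) / log T` to `π (1 + e)`; for
`a > 1/2` the number `n` is the multiplicity of the eigenvalue `a (1 - a)`.

(B) Let such functions `F` exist for all `Γ(N)` (Selberg's theorem), and let `1/2 ≤ a < 1`,
`γ > π / 2`. The following are equivalent: there are no eigenvalues `λ` with `0 < λ < a (1 - a)` for
congruence subgroups (for `a = 1/2` this is Selberg's conjecture); for all `N` the limit of `count` is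
`π`; for all `N` there is a number `c < 2 π` with `count T ≤ c` for arbitrarily large `T`. -/
theorem result :
    (∀ (Γ : Subgroup SL(2, ℤ)), Γ.FiniteIndex →
      (∀ a γ T : ℝ, 0 < T → Summable fun x : Geodesic Γ × ℕ => ‖term a γ T x‖) ∧
      ∀ F : ℂ → ℂ, IsSelbergZeta Γ F → ∀ γ a : ℝ, Real.pi / 2 < γ → 1 / 2 ≤ a → a < 1 →
        ∃ (n : ℤ) (l : ℂ) (e : ℕ), meromorphicOrderAt F (a : ℂ) = n ∧
          meromorphicTrailingCoeffAt F (a : ℂ) = l ∧ l ≠ 0 ∧
          (1 / 2 < a → ∃ k : ℕ, HasMultiplicity Γ (a * (1 - a)) k ∧ n = k) ∧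
          IsCount Γ a e ∧
          (fun T : ℝ => sum Γ a γ T - (n * (Real.log T - Lambda γ) - Real.log ‖l‖ +
            Real.pi * (1 + e) * Complex.I)) =O[atTop] (fun T : ℝ => 1 / T) ∧
          Tendsto (fun T : ℝ => (sum Γ a γ T).re / Real.log T) atTop (𝓝 n) ∧
          Tendsto (count Γ a γ) atTop (𝓝 (Real.pi * (1 + e)))) ∧
    ((∀ N : ℕ, 0 < N → ∃ F : ℂ → ℂ, IsSelbergZeta (CongruenceSubgroup.Gamma N) F) →
      ∀ γ a : ℝ, Real.pi / 2 < γ → 1 / 2 ≤ a → a < 1 → List.TFAE [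
        ∀ Γ : Subgroup SL(2, ℤ), (∃ N : ℕ, 0 < N ∧ CongruenceSubgroup.Gamma N ≤ Γ) →
          NoEigenvalue Γ (a * (1 - a)),
        ∀ N : ℕ, 0 < N →
          Tendsto (count (CongruenceSubgroup.Gamma N) a γ) atTop (𝓝 Real.pi),
        ∀ N : ℕ, 0 < N → ∃ c : ℝ, c < 2 * Real.pi ∧
          ∃ᶠ T : ℝ in atTop, count (CongruenceSubgroup.Gamma N) a γ T ≤ c]) := by
  refine ⟨fun Γ hΓ => ⟨fun a γ T hT => ?_, fun F hF γ a hγ ha ha1 => one_group Γ hF hγ ha ha1⟩,
    fun hex γ a hγ ha ha1 => ?_⟩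
  · exact Pool.Agent.U252.SZ.geoTerm_summable (Γ := Γ) a γ hT
  · have hone : ∀ N : ℕ, 0 < N → ∃ e : ℕ, IsCount (CongruenceSubgroup.Gamma N) a e ∧
        Tendsto (count (CongruenceSubgroup.Gamma N) a γ) atTop (𝓝 (Real.pi * (1 + e))) := by
      intro N hN
      have : NeZero N := ⟨hN.ne'⟩
      obtain ⟨F, hF⟩ := hex N hN
      obtain ⟨n, l, e, -, -, -, -, h5, -, -, h8⟩ :=
        one_group (CongruenceSubgroup.Gamma N) hF hγ ha ha1
      exact ⟨e, h5, h8⟩
    have hpi := Real.pi_pos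
    tfae_have 1 → 2 := by
      intro h N hN
      obtain ⟨e, h5, h8⟩ := hone N hN
      have h9 := (count_zero_iff ha h5).2 (h _ ⟨N, hN, le_rfl⟩)
      rw [h9] at h8
      simpa using h8
    tfae_have 2 → 3 := by
      intro h N hN
      exact ⟨3 / 2 * Real.pi, by linarith,
        ((h N hN).eventually (ge_mem_nhds (by linarith))).frequently⟩
    tfae_have 3 → 1 := by
      rintro h Γ ⟨N, hN, hle⟩ f μ hμ hμa hf
      obtain ⟨e, h5, h8⟩ := hone N hN
      have h9 : e = 0 := by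
        by_contra h10
        have h11 : (1 : ℝ) ≤ e := by exact_mod_cast Nat.pos_of_ne_zero h10
        obtain ⟨c, hc, hfr⟩ := h N hN
        have h12 : Real.pi * (1 + e) ≤ c := le_of_tendsto_of_frequently h8 hfr
        nlinarith
      exact (count_zero_iff ha h5).1 h9 f μ hμ hμa (hf.mono hle)
    tfae_finish

end Pool.Agent.Results.MP_a812b2_nt.SmallEigenvalueCount
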